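import Mathlib
import Pool.Agent.Helper92.PU.Leaves
import Pool.Agent.Helper48.PU.Int
import Pool.Agent.Helper48.PU.Pat
import Pool.Agent.Helper48.LB.Inst

/-!
# PU, leaf Y: the exponent of `p` is one and `p * r ∣ K`

Paper proof (helper92, memo Ppqr, Lemma Y).  Every class (first coordinate modulo `p`, colour) of `A` and of `L` has
exactly `h = K / (p r)` elements.  So `L` has a pair of different colours with both bottom digits different.  If it
has no such pair of equal colours, every colour class of `L` lies in one `q`-digit and every element of `A` is pure: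
Lemma B.  If both sets have pairs of both kinds, then (no periodicity) `q`-lines exist in both, so `q ^ 2 ∣ K` or
`m = 0` and `A` is everything.
-/

set_option autoImplicit false

namespace Pool.Agent.Helper21.PU

open Pool.Agent.Helper92.SS
open Pool.Agent.Helper92.PU
open Pool.Agent.Helper48.PU
open Pool.Agent.Helper48.LB

private theorem c1_congr {S : Finset (ℤ × ℤ)} {M : ℕ} {x y : ℤ} (h : (M : ℤ) ∣ x - y) :
    c1 S M x = c1 S M y := by
  unfold c1
  congr 1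
  apply Finset.filter_congr
  intro a _
  constructor
  · intro e
    have e' : a.1 - y = (a.1 - x) + (x - y) := by ring
    rw [e']
    exact dvd_add e h
  · intro e
    have e' : a.1 - x = (a.1 - y) - (x - y) := by ring
    rw [e']
    exact dvd_sub e h

private theorem cc_congr2 {S : Finset (ℤ × ℤ)} {M M' : ℕ} {x y y' : ℤ} (h : (M' : ℤ) ∣ y - y') :
    cc S M M' x y = cc S M M' x y' := by
  unfold cc
  congr 1
  apply Finset.filter_congr
  intro a _
  refine and_congr_right fun _ => ?_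
  constructor
  · intro e
    have e' : a.2 - y' = (a.2 - y) + (y - y') := by ring
    rw [e']
    exact dvd_add e h
  · intro e
    have e' : a.2 - y = (a.2 - y') - (y - y') := by ring
    rw [e']
    exact dvd_sub e h

private theorem exists_digit {p : ℕ} (hp : 0 < p) (x : ℤ) : ∃ i < p, (p : ℤ) ∣ x - (i : ℤ) := by
  have h0 : (0 : ℤ) ≤ x % p := Int.emod_nonneg _ (by exact_mod_cast hp.ne')
  have h1 : x % p < p := Int.emod_lt_of_pos _ (by exact_mod_cast hp)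
  refine ⟨(x % p).toNat, ?_, ?_⟩
  · have := Int.toNat_of_nonneg h0
    omega
  · rw [Int.toNat_of_nonneg h0]
    exact Int.dvd_self_sub_emod

/-- Two elements of one class: the exponential sum of `L` in the second coordinate vanishes. -/
private theorem snd_zero {p q m r : ℕ} {ca cl : ℤ × ℤ → ZMod r} {A L : Finset (ℤ × ℤ)}
    (hp : p.Prime) (hq : q.Prime) (hpq : p ≠ q) (h : CP p 1 q (m + 1) ca cl A L) {a a' : ℤ × ℤ}
    (ha : a ∈ A) (ha' : a' ∈ A) (hne : a ≠ a') (hc : ca a = ca a') (h1 : (p : ℤ) ∣ a.1 - a'.1) :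
    ∃ j ≤ m, ev q j (a.2 - a'.2) ∧ ∑ l ∈ L, ec (q ^ (m + 1 - j)) l.2 = 0 := by
  have h0 := h.a.1 a ha a' ha' hne hc
  obtain ⟨j, hj, hty⟩ := exists_ty q (m + 1) (a.2 - a'.2)
  have hjm : j < m + 1 := by
    rcases Nat.lt_or_ge j (m + 1) with h2 | h2
    · exact h2
    · exfalso
      apply hne
      refine cp_inj hp.pos hq.pos h ha ha' hc (by rwa [pow_one]) ?_
      exact (hty (m + 1) le_rfl).2 h2
  have hev : ev q j (a.2 - a'.2) := (ty_iff_ev hjm _).1 hty
  refine ⟨j, by omega, hev, ?_⟩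
  rw [← sm_snd (p := p) (n := 1) hp.pos L (j := j) (m := m + 1) (by omega) hq.pos]
  refine type_zero hp hq hpq (fun i hi => ?_) (fun k hk => ?_) h0
  · have hd : (p : ℤ) ^ 1 ∣ (a - a').1 := by
      rw [pow_one]
      exact h1
    constructor
    · intro _
      exact pow_dvd_pow _ hi
    · intro _
      exact (pow_dvd_pow _ hi).trans hd
  · exact ty_pow hev.1 (fun _ => hev.2) k hk

/-- (y1), upper bound. -/
private theorem cls_le {p q m r : ℕ} {ca cl : ℤ × ℤ → ZMod r} {A L : Finset (ℤ × ℤ)}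
    (h : Mn p 0 q m ca cl A L) {hh : ℕ} (hK : A.card = p * r * hh) (x : ZMod r) (i : ℤ) :
    c1 (kl ca A x) p i ≤ hh := by
  classical
  have hpos : 0 < hh := by
    rcases Nat.eq_zero_or_pos hh with h0 | h0
    · exfalso
      rw [h0, Nat.mul_zero] at hK
      exact (Finset.card_pos.2 h.ne).ne' hK
    · exact h0
  let J : Finset ℕ := (Finset.range (m + 1)).filter fun j => ∑ l ∈ L, ec (q ^ (m + 1 - j)) l.2 = 0
  have hJ1 : c1 (kl ca A x) p i ≤ q ^ J.card := by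
    unfold c1
    refine card_fib_le2 h.hq _ J ?_
    intro a ha a' ha' hne
    rw [Finset.mem_filter, mem_kl] at ha ha'
    have hd : (p : ℤ) ∣ a.1 - a'.1 := by
      have e : a.1 - a'.1 = (a.1 - i) - (a'.1 - i) := by ring
      rw [e]
      exact dvd_sub ha.2 ha'.2
    obtain ⟨j, hj, hev, hz⟩ := snd_zero h.hp h.hq h.pq h.cp ha.1.1 ha'.1.1 hne
      (ha.1.2.trans ha'.1.2.symm) hd
    exact ⟨j, Finset.mem_filter.2 ⟨Finset.mem_range.2 (by omega), hz⟩, hev⟩
  have hJ2 : q ^ J.card ∣ L.card := by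
    have hinj : Set.InjOn (fun j => m - j) (J : Set ℕ) := by
      intro j hj k hk hjk
      have hj' := Finset.mem_range.1 (Finset.mem_filter.1 hj).1
      have hk' := Finset.mem_range.1 (Finset.mem_filter.1 hk).1
      simp only at hjk
      omega
    rw [← Finset.card_image_of_injOn hinj]
    refine pow_dvd2 h.hq L _ ?_
    intro k hk
    obtain ⟨j, hj, rfl⟩ := Finset.mem_image.1 hk
    have hj' := Finset.mem_filter.1 hj
    have hj2 := Finset.mem_range.1 hj'.1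
    have e : m - j + 1 = m + 1 - j := by omega
    rw [e]
    exact hj'.2
  rw [← h.cp.card, hK] at hJ2
  have hcop : Nat.Coprime (q ^ J.card) (p * r) := by
    apply Nat.Coprime.pow_left
    exact Nat.Coprime.mul_right ((Nat.coprime_primes h.hq h.hp).2 (Ne.symm h.pq))
      ((Nat.coprime_primes h.hq h.hr).2 (Ne.symm h.rq))
  exact hJ1.trans (Nat.le_of_dvd hpos (hcop.dvd_of_dvd_mul_left hJ2))

/-- (y1): all classes have the same number of elements. -/
theorem cls_eq {p q m r : ℕ} {ca cl : ℤ × ℤ → ZMod r} {A L : Finset (ℤ × ℤ)}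
    (h : Mn p 0 q m ca cl A L) {hh : ℕ} (hK : A.card = p * r * hh) (x : ZMod r) (i : ℤ) :
    c1 (kl ca A x) p i = hh := by
  classical
  have : NeZero r := ⟨h.hr.ne_zero⟩
  obtain ⟨j, hj, hd⟩ := exists_digit h.hp.pos i
  rw [c1_congr hd]
  have h1 : ∑ z ∈ (Finset.univ : Finset (ZMod r)) ×ˢ Finset.range p, c1 (kl ca A z.1) p (z.2 : ℤ) =
      ∑ _z ∈ (Finset.univ : Finset (ZMod r)) ×ˢ Finset.range p, hh := by
    rw [Finset.sum_product, Finset.sum_const, Finset.card_product, Finset.card_univ, ZMod.card,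
      Finset.card_range, smul_eq_mul]
    have h2 : ∀ y : ZMod r, ∑ k ∈ Finset.range p, c1 (kl ca A y) p (k : ℤ) = (kl ca A y).card :=
      fun y => card_sum1 h.hp.pos _
    rw [Finset.sum_congr rfl fun y _ => h2 y, card_kl ca A, hK]
    ring
  have h3 := (Finset.sum_eq_sum_iff_of_le fun z _ => cls_le h hK z.1 (z.2 : ℤ)).1 h1
  exact h3 (x, j) (Finset.mem_product.2 ⟨Finset.mem_univ _, Finset.mem_range.2 hj⟩)

/-- Some element in every class. -/
private theorem get_el {p r : ℕ} {cl : ℤ × ℤ → ZMod r} {L : Finset (ℤ × ℤ)} {hh : ℕ} (hpos : 0 < hh)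
    (hc : ∀ (y : ZMod r) (i : ℤ), c1 (kl cl L y) p i = hh) (y : ZMod r) (i : ℤ) :
    ∃ l ∈ L, cl l = y ∧ (p : ℤ) ∣ l.1 - i := by
  have h1 := hc y i
  rw [← h1] at hpos
  unfold c1 at hpos
  obtain ⟨l, hl⟩ := Finset.card_pos.1 hpos
  rw [Finset.mem_filter, mem_kl] at hl
  exact ⟨l, hl.1.1, hl.1.2, hl.2⟩

private theorem two_others {r : ℕ} (h3 : 3 ≤ r) (c : ZMod r) :
    ∃ c' c'' : ZMod r, c' ≠ c ∧ c'' ≠ c ∧ c' ≠ c'' := by
  have : NeZero r := ⟨by omega⟩
  have hcard : ((Finset.univ : Finset (ZMod r)).erase c).card = r - 1 := by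
    rw [Finset.card_erase_of_mem (Finset.mem_univ _), Finset.card_univ, ZMod.card]
  obtain ⟨c', hc', c'', hc'', hne⟩ := Finset.one_lt_card.1 (by rw [hcard]; omega :
    1 < ((Finset.univ : Finset (ZMod r)).erase c).card)
  exact ⟨c', c'', (Finset.mem_erase.1 hc').1, (Finset.mem_erase.1 hc'').1, hne⟩

private theorem nd_of {p x y z : ℤ} (h : ¬ p ∣ x - y) (h' : p ∣ z - y) : ¬ p ∣ x - z := by
  intro e
  apply h
  have e' : x - y = (x - z) + (z - y) := by ring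
  rw [e']
  exact dvd_add e h'

private theorem nd_symm {p x y : ℤ} (h : ¬ p ∣ x - y) : ¬ p ∣ y - x := fun e => h (by
  have e' : x - y = -(y - x) := by ring
  rw [e']
  exact (dvd_neg).2 e)

private theorem d_symm {p x y : ℤ} (h : p ∣ x - y) : p ∣ y - x := by
  have e' : y - x = -(x - y) := by ring
  rw [e']
  exact (dvd_neg).2 h

/-- (y2): there is a pair of different colours with both digits different. -/
theorem diff_pair {p q m r : ℕ} {ca cl : ℤ × ℤ → ZMod r} {A L : Finset (ℤ × ℤ)}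
    (h : Mn p 0 q m ca cl A L) {hh : ℕ} (hpos : 0 < hh)
    (hc : ∀ (y : ZMod r) (i : ℤ), c1 (kl cl L y) p i = hh) :
    ∃ l ∈ L, ∃ l' ∈ L, ¬ (p : ℤ) ∣ l.1 - l'.1 ∧ ¬ (q : ℤ) ∣ l.2 - l'.2 ∧ cl l ≠ cl l' := by
  by_contra hS
  push Not at hS
  obtain ⟨l, hl, l', hl', h1, h2⟩ := zz_pair h.oL1 h.oL2
  have hcol : cl l = cl l' := hS l hl l' hl' h1 h2
  obtain ⟨c', c'', k1, k2, k3⟩ := two_others h.r3 (cl l)
  obtain ⟨l5, hl5, e5, d5⟩ := get_el hpos hc c'' l'.1
  obtain ⟨l4, hl4, e4, d4⟩ := get_el hpos hc c' l.1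
  have n5 : ¬ (p : ℤ) ∣ l.1 - l5.1 := nd_of h1 d5
  have q5 : (q : ℤ) ∣ l.2 - l5.2 := by
    by_contra hcon
    exact k2 ((hS l hl l5 hl5 n5 hcon).trans e5).symm
  have n4 : ¬ (p : ℤ) ∣ l'.1 - l4.1 := nd_of (nd_symm h1) d4
  have q4 : (q : ℤ) ∣ l'.2 - l4.2 := by
    by_contra hcon
    exact k1 (((hcol.trans (hS l' hl' l4 hl4 n4 hcon)).trans e4)).symm
  have n45 : ¬ (p : ℤ) ∣ l5.1 - l4.1 := by
    refine nd_of (y := l.1) ?_ d4
    exact nd_symm n5
  have q45 : ¬ (q : ℤ) ∣ l5.2 - l4.2 := by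
    refine nd_of (y := l'.2) ?_ (d_symm q4)
    exact nd_symm (nd_of (nd_symm h2) (d_symm q5))
  exact k3 (e4.symm.trans ((hS l5 hl5 l4 hl4 n45 q45).symm.trans e5))

/-- State D: every colour class lies in one `q`-digit. -/
private theorem one_digit {p q r : ℕ} {cl : ℤ × ℤ → ZMod r} {L : Finset (ℤ × ℤ)} (hp : p.Prime)
    {hh : ℕ} (hpos : 0 < hh) (hc : ∀ (y : ZMod r) (i : ℤ), c1 (kl cl L y) p i = hh)
    (hD : ∀ l ∈ L, ∀ l' ∈ L, ¬ (p : ℤ) ∣ l.1 - l'.1 → ¬ (q : ℤ) ∣ l.2 - l'.2 → cl l ≠ cl l')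
    {l l' : ℤ × ℤ} (hl : l ∈ L) (hl' : l' ∈ L) (he : cl l = cl l') : (q : ℤ) ∣ l.2 - l'.2 := by
  have key : ∀ u ∈ L, ∀ v ∈ L, cl u = cl v → ¬ (p : ℤ) ∣ u.1 - v.1 → (q : ℤ) ∣ u.2 - v.2 := by
    intro u hu v hv huv hn
    by_contra hcon
    exact hD u hu v hv hn hcon huv
  by_cases h1 : (p : ℤ) ∣ l.1 - l'.1
  swap
  · exact key l hl l' hl' he h1
  obtain ⟨l3, hl3, e3, d3⟩ := get_el hpos hc (cl l) (l.1 + 1)
  have hn1 : ¬ (p : ℤ) ∣ l.1 - (l.1 + 1) := by
    intro e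
    have e' : l.1 - (l.1 + 1) = -1 := by ring
    rw [e', dvd_neg] at e
    exact hp.one_lt.ne' (by exact_mod_cast Int.eq_one_of_dvd_one (by positivity) e)
  have n1 : ¬ (p : ℤ) ∣ l.1 - l3.1 := nd_of hn1 d3
  have n2 : ¬ (p : ℤ) ∣ l'.1 - l3.1 := by
    intro e
    apply n1
    have e' : l.1 - l3.1 = (l.1 - l'.1) + (l'.1 - l3.1) := by ring
    rw [e']
    exact dvd_add h1 e
  have a1 := key l hl l3 hl3 e3.symm n1
  have a2 := key l' hl' l3 hl3 (he.symm.trans e3.symm) n2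
  have e' : l.2 - l'.2 = (l.2 - l3.2) - (l'.2 - l3.2) := by ring
  rw [e']
  exact dvd_sub a1 a2

/-- (y3), first part. -/
private theorem dich {p q m r : ℕ} {ca cl : ℤ × ℤ → ZMod r} {A L : Finset (ℤ × ℤ)}
    (h : Mn p 0 q m ca cl A L) {hh : ℕ} (hpos : 0 < hh)
    (hc : ∀ (y : ZMod r) (i : ℤ), c1 (kl cl L y) p i = hh)
    (hD : ∀ l ∈ L, ∀ l' ∈ L, ¬ (p : ℤ) ∣ l.1 - l'.1 → ¬ (q : ℤ) ∣ l.2 - l'.2 → cl l ≠ cl l')
    {a b : ℤ × ℤ} (ha : a ∈ A) (hb : b ∈ A) (hab : ca a ≠ ca b) :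
    (∀ y : ZMod r, sm p 1 q (m + 1) (kl cl L y) (a - b) = 0) ∨
      ((p : ℤ) ^ 1 ∣ a.1 - b.1 ∧ (q : ℤ) ^ (m + 1) ∣ a.2 - b.2) := by
  classical
  have hp := h.hp
  have hq := h.hq
  have E := h.cp.a.2 a ha b hb hab
  obtain ⟨l1, hl1, l2, hl2, h12⟩ : ∃ l1 ∈ L, ∃ l2 ∈ L, ¬ (q : ℤ) ∣ l1.2 - l2.2 := by
    have := h.oL2
    unfold one2 at this
    push Not at this
    exact this
  have dig : ∀ u ∈ L, ∀ v ∈ L, cl u = cl v → (q : ℤ) ∣ u.2 - v.2 := fun u hu v hv e =>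
    one_digit hp hpos hc hD hu hv e
  by_cases hqm : (q : ℤ) ^ m ∣ (a - b).2
  swap
  · left
    have hz : sm p 1 q (m + 1) (kl cl L (cl l1)) (a - b) = 0 := by
      have w0 : ws p 1 q (m + 1) L (wd cl (cl l1) (cl l2)) (a - b) = 0 := by
        rw [ws_wd, E (cl l1) (cl l2), sub_self]
      have w1 := ws_res2 hp hq h.pq (j := 1) (by omega) (by simpa using hqm) w0 l1.2
      rw [ws_wd] at w1
      have f1 : kl cl (L.filter fun a => (q : ℤ) ^ 1 ∣ a.2 - l1.2) (cl l1) = kl cl L (cl l1) := by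
        ext u
        rw [mem_kl, mem_kl, Finset.mem_filter]
        constructor
        · rintro ⟨⟨h1, _⟩, h2⟩
          exact ⟨h1, h2⟩
        · rintro ⟨h1, h2⟩
          exact ⟨⟨h1, by rw [pow_one]; exact dig u h1 l1 hl1 h2⟩, h2⟩
      have f2 : kl cl (L.filter fun a => (q : ℤ) ^ 1 ∣ a.2 - l1.2) (cl l2) = ∅ := by
        rw [Finset.eq_empty_iff_forall_notMem]
        intro u hu
        rw [mem_kl, Finset.mem_filter, pow_one] at hu
        obtain ⟨⟨h1, h2⟩, h3⟩ := hu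
        apply h12
        have e' : l1.2 - l2.2 = (u.2 - l2.2) - (u.2 - l1.2) := by ring
        rw [e']
        exact dvd_sub (dig u h1 l2 hl2 h3) h2
      rw [f1, f2] at w1
      have f3 : sm p 1 q (m + 1) ∅ (a - b) = 0 := by
        unfold sm
        rw [Finset.sum_empty]
      rwa [f3, sub_zero] at w1
    intro y
    rw [E y (cl l1)]
    exact hz
  have hconst : ∀ u ∈ L, ∀ v ∈ L, cl u = cl v →
      ec (q ^ (m + 1)) (u.2 * (a - b).2) = ec (q ^ (m + 1)) (v.2 * (a - b).2) := by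
    intro u hu v hv e
    refine ec_congr (pow_pos hq.pos _) ?_
    rw [← sub_mul]
    push_cast
    rw [pow_succ, mul_comm (u.2 - v.2)]
    exact mul_dvd_mul hqm (dig u hu v hv e)
  by_cases hp1 : (p : ℤ) ∣ (a - b).1
  swap
  · left
    intro y
    obtain ⟨l0, hl0, e0, -⟩ := get_el hpos hc y 0
    have hT : sm p 1 q (m + 1) (kl cl L y) ((a - b).1, 0) = 0 := by
      have t1 : sm p 1 q (m + 1) (kl cl L y) ((p : ℤ) ^ 0, (q : ℤ) ^ (m + 1)) = 0 := by
        rw [sm_fst hq.pos _ (by omega) hp.pos]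
        have := (ech hp (kl cl L y) 0).2 (fun x s => by
          rw [zero_add, pow_one, hc, hc])
        simpa using this
      refine type_zero hp hq h.pq (fun i hi => ?_) (fun j hj => ?_) t1
      · interval_cases i
        · simp
        · rw [pow_zero, pow_one]
          constructor
          · intro e
            exfalso
            exact hp.one_lt.ne' (by exact_mod_cast Int.eq_one_of_dvd_one (by positivity) e)
          · intro e
            exact (hp1 e).elim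
      · constructor
        · intro _
          exact dvd_zero _
        · intro _
          exact pow_dvd_pow _ hj
    have hS : sm p 1 q (m + 1) (kl cl L y) (a - b) =
        ec (q ^ (m + 1)) (l0.2 * (a - b).2) * sm p 1 q (m + 1) (kl cl L y) ((a - b).1, 0) := by
      unfold sm ch
      rw [Finset.mul_sum]
      refine Finset.sum_congr rfl fun u hu => ?_
      rw [mem_kl] at hu
      rw [hconst u hu.1 l0 hl0 (hu.2.trans e0.symm)]
      simp only [mul_zero, ec_zero, mul_one]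
      ring
    rw [hS, hT, mul_zero]
  right
  have hval : ∀ u ∈ L, sm p 1 q (m + 1) (kl cl L (cl u)) (a - b) =
      ((p * hh : ℕ) : ℂ) * ec (q ^ (m + 1)) (u.2 * (a - b).2) := by
    intro u hu
    have hcard : (kl cl L (cl u)).card = p * hh := by
      rw [← card_sum1 hp.pos (kl cl L (cl u))]
      simp only [hc]
      rw [Finset.sum_const, Finset.card_range, smul_eq_mul]
    rw [← hcard]
    unfold sm ch
    rw [← nsmul_eq_mul, ← Finset.sum_const]
    refine Finset.sum_congr rfl fun v hv => ?_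
    rw [mem_kl] at hv
    rw [hconst v hv.1 u hu hv.2]
    have : ec (p ^ 1) (v.1 * (a - b).1) = 1 := by
      rw [ec_eq_one_iff (pow_pos hp.pos _), pow_one]
      exact hp1.mul_left _
    rw [this, one_mul]
  have h5 : ec (q ^ (m + 1)) (l1.2 * (a - b).2) = ec (q ^ (m + 1)) (l2.2 * (a - b).2) := by
    have e := E (cl l1) (cl l2)
    rw [hval l1 hl1, hval l2 hl2] at e
    refine mul_left_cancel₀ ?_ e
    exact Nat.cast_ne_zero.2 (Nat.mul_pos hp.pos hpos).ne'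
  have h6 : ec (q ^ (m + 1)) ((l1.2 - l2.2) * (a - b).2) = 1 := by
    rw [sub_mul, sub_eq_add_neg, ec_add, ec_neg, h5]
    exact mul_inv_cancel₀ (ec_ne_zero _ _)
  rw [ec_eq_one_iff (pow_pos hq.pos _)] at h6
  push_cast at h6
  refine ⟨by rw [pow_one]; exact hp1, ?_⟩
  have hcop : IsCoprime ((q : ℤ) ^ (m + 1)) (l1.2 - l2.2) := by
    apply IsCoprime.pow_left
    rw [Prime.coprime_iff_not_dvd (Nat.prime_iff_prime_int.1 hq)]
    exact h12
  exact hcop.dvd_of_dvd_mul_left h6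

/-- State D of `L`. -/
theorem dcase {p q m r : ℕ} {ca cl : ℤ × ℤ → ZMod r} {A L : Finset (ℤ × ℤ)}
    (h : Mn p 0 q m ca cl A L) {hh : ℕ} (hpos : 0 < hh)
    (hc : ∀ (y : ZMod r) (i : ℤ), c1 (kl cl L y) p i = hh)
    (hD : ∀ l ∈ L, ∀ l' ∈ L, ¬ (p : ℤ) ∣ l.1 - l'.1 → ¬ (q : ℤ) ∣ l.2 - l'.2 → cl l ≠ cl l') :
    P0 p 1 q (m + 1) ca cl A L ∨ P1 p 1 q (m + 1) ca cl A L := by
  refine dic_symm h.hr.pos h.cp.symm ?_
  refine lemB h.hp h.hq h.pq h.hr h.rp h.rq (by have := h.r3; omega) h.cp.symm ?_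
  intro a ha
  by_cases hx : ∃ b ∈ A, ca a ≠ ca b ∧ (p : ℤ) ^ 1 ∣ a.1 - b.1 ∧ (q : ℤ) ^ (m + 1) ∣ a.2 - b.2
  · right
    obtain ⟨b, hb, hab, d1, d2⟩ := hx
    intro a' ha' hne hcol y
    have hcol' : ca a' ≠ ca b := fun e => hab (hcol.trans e)
    rcases dich h hpos hc hD ha' hb hcol' with h1 | ⟨h1, h2⟩
    · have h3 := h1 y
      refine type_zero h.hp h.hq h.pq (fun i hi => ?_) (fun j hj => ?_) h3
      · have e1 : (p : ℤ) ^ i ∣ a.1 - b.1 := (pow_dvd_pow _ hi).trans d1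
        show (p : ℤ) ^ i ∣ a'.1 - b.1 ↔ (p : ℤ) ^ i ∣ a.1 - a'.1
        constructor
        · intro e
          have e' : a.1 - a'.1 = (a.1 - b.1) - (a'.1 - b.1) := by ring
          rw [e']
          exact dvd_sub e1 e
        · intro e
          have e' : a'.1 - b.1 = (a.1 - b.1) - (a.1 - a'.1) := by ring
          rw [e']
          exact dvd_sub e1 e
      · have e1 : (q : ℤ) ^ j ∣ a.2 - b.2 := (pow_dvd_pow _ hj).trans d2
        show (q : ℤ) ^ j ∣ a'.2 - b.2 ↔ (q : ℤ) ^ j ∣ a.2 - a'.2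
        constructor
        · intro e
          have e' : a.2 - a'.2 = (a.2 - b.2) - (a'.2 - b.2) := by ring
          rw [e']
          exact dvd_sub e1 e
        · intro e
          have e' : a'.2 - b.2 = (a.2 - b.2) - (a.2 - a'.2) := by ring
          rw [e']
          exact dvd_sub e1 e
    · exfalso
      apply hne
      refine cp_inj h.hp.pos h.hq.pos h.cp ha ha' hcol ?_ ?_
      · have e' : a.1 - a'.1 = (a.1 - b.1) - (a'.1 - b.1) := by ring
        rw [e']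
        exact dvd_sub d1 h1
      · have e' : a.2 - a'.2 = (a.2 - b.2) - (a'.2 - b.2) := by ring
        rw [e']
        exact dvd_sub d2 h2
  · left
    push Not at hx
    intro b hb hab y
    rcases dich h hpos hc hD ha hb hab with h1 | ⟨h1, h2⟩
    · exact h1 y
    · exact (hx b hb hab h1 h2).elim

/-- State BOTH of `L`, `A` not periodic: `L` is uniform modulo `q`. -/
theorem uni_q {p q m r : ℕ} {ca cl : ℤ × ℤ → ZMod r} {A L : Finset (ℤ × ℤ)}
    (h : Mn p 0 q m ca cl A L)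
    (hS : ∃ l ∈ L, ∃ l' ∈ L, ¬ (p : ℤ) ∣ l.1 - l'.1 ∧ ¬ (q : ℤ) ∣ l.2 - l'.2 ∧ cl l = cl l')
    (hN : ∃ l ∈ L, ∃ l' ∈ L, ¬ (p : ℤ) ∣ l.1 - l'.1 ∧ ¬ (q : ℤ) ∣ l.2 - l'.2 ∧ cl l ≠ cl l') :
    Eq' q L := by
  obtain ⟨l, hl, l', hl', h1, h2, h3⟩ := hS
  obtain ⟨k, hk, k', hk', g1, g2, g3⟩ := hN
  have hnp := h.pA1
  unfold CPer at hnp
  push Not at hnp
  obtain ⟨a, ha, hno⟩ := hnp
  have hB := st_B h.hp h.hq h.hr.pos h.pq h.cp hl hl' h3 h1 h2 hk hk' g3 g1 g2 (ca a) a.1 a.2 1 1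
  have c0 : 0 < cc (kl ca A (ca a)) (p ^ (0 + 1)) (q ^ (m + 1)) a.1 a.2 := by
    rw [cc_pos]
    exact ⟨a, mem_kl.2 ⟨ha, rfl⟩, by simp, by simp⟩
  have c10 : cc (kl ca A (ca a)) (p ^ (0 + 1)) (q ^ (m + 1)) (a.1 + 1 * (p : ℤ) ^ 0) a.2 = 0 := by
    by_contra hcon
    obtain ⟨b, hb, d1, d2⟩ := cc_pos.1 (Nat.pos_of_ne_zero hcon)
    rw [mem_kl] at hb
    push_cast at d1 d2
    rw [one_mul] at d1
    exact hno b hb.1 hb.2 d1 d2
  have c01 : 0 < cc (kl ca A (ca a)) (p ^ (0 + 1)) (q ^ (m + 1)) a.1 (a.2 + 1 * (q : ℤ) ^ m) := by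
    omega
  obtain ⟨b, hb, d1, d2⟩ := cc_pos.1 c01
  rw [mem_kl] at hb
  push_cast at d1 d2
  rw [one_mul] at d2
  intro x
  refine pat_q h.hp h.hq h.pq h.cp ha hb.1 hb.2.symm ?_ ?_ ?_ x
  · exact d_symm d1
  · have e : a.2 - b.2 = -(b.2 - (a.2 + (q : ℤ) ^ m)) - (q : ℤ) ^ m := by ring
    rw [e]
    exact dvd_sub ((dvd_neg).2 ((pow_dvd_pow _ (by omega)).trans d2)) dvd_rfl
  · intro e
    have e2 : (q : ℤ) ^ m = -(b.2 - (a.2 + (q : ℤ) ^ m)) - (a.2 - b.2) := by ring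
    have e3 : (q : ℤ) ^ (m + 1) ∣ (q : ℤ) ^ m := by
      rw [e2]
      exact dvd_sub ((dvd_neg).2 d2) e
    have hq0 : (0 : ℤ) < q := by exact_mod_cast h.hq.pos
    have hq1 : (1 : ℤ) < q := by exact_mod_cast h.hq.one_lt
    have e4 := Int.le_of_dvd (pow_pos hq0 m) e3
    rw [pow_succ] at e4
    nlinarith [pow_pos hq0 m]

/-- The case `m = 0`: everything. -/
theorem full_per {p q r : ℕ} {ca cl : ℤ × ℤ → ZMod r} {A L : Finset (ℤ × ℤ)}
    (h : Mn p 0 q 0 ca cl A L) (hc : ∀ (x : ZMod r) (i : ℤ), c1 (kl ca A x) p i = q) : False := by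
  apply h.pA1
  intro a ha
  have hone : ∀ j : ℤ, cc (kl ca A (ca a)) p q (a.1 + 1) j ≤ 1 := by
    intro j
    have := cc_le_one h.hp.pos h.hq.pos h.cp (ca a) (a.1 + 1) j
    simpa using this
  have hsum : ∑ j ∈ Finset.range q, cc (kl ca A (ca a)) p q (a.1 + 1) (j : ℤ) =
      ∑ _j ∈ Finset.range q, 1 := by
    rw [c1_sum h.hq.pos, hc, Finset.sum_const, Finset.card_range, smul_eq_mul, mul_one]
  have hall := (Finset.sum_eq_sum_iff_of_le (s := Finset.range q)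
    (f := fun j : ℕ => cc (kl ca A (ca a)) p q (a.1 + 1) (j : ℤ)) (g := fun _ => 1)
    fun j _ => hone (j : ℤ)).1 hsum
  obtain ⟨j, hj, hd⟩ := exists_digit h.hq.pos a.2
  have h1 := hall j (Finset.mem_range.2 hj)
  rw [← cc_congr2 hd] at h1
  obtain ⟨b, hb, d1, d2⟩ := cc_pos.1 (by omega : 0 < cc (kl ca A (ca a)) p q (a.1 + 1) a.2)
  rw [mem_kl] at hb
  exact ⟨b, hb.1, hb.2, by simpa using d1, by simpa using d2⟩

/-- LEAF Y. -/
theorem leafY : LeafY := by
  intro p q m r ca cl A L h hpK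
  have hprK : p * r ∣ A.card :=
    Nat.Coprime.mul_dvd_of_dvd_of_dvd ((Nat.coprime_primes h.hp h.hr).2 (Ne.symm h.rp)) hpK h.rK
  obtain ⟨hh, hK⟩ := hprK
  have hpos : 0 < hh := by
    rcases Nat.eq_zero_or_pos hh with h0 | h0
    · exfalso
      rw [h0, Nat.mul_zero] at hK
      exact (Finset.card_pos.2 h.ne).ne' hK
    · exact h0
  have hKL : L.card = p * r * hh := by rw [← h.cp.card, hK]
  have hcA : ∀ (x : ZMod r) (i : ℤ), c1 (kl ca A x) p i = hh := fun x i => cls_eq h hK x i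
  have hcL : ∀ (y : ZMod r) (i : ℤ), c1 (kl cl L y) p i = hh := fun y i => cls_eq h.symm hKL y i
  by_cases hSL : ∃ l ∈ L, ∃ l' ∈ L, ¬ (p : ℤ) ∣ l.1 - l'.1 ∧ ¬ (q : ℤ) ∣ l.2 - l'.2 ∧ cl l = cl l'
  swap
  · push Not at hSL
    exact dcase h hpos hcL hSL
  by_cases hSA : ∃ l ∈ A, ∃ l' ∈ A, ¬ (p : ℤ) ∣ l.1 - l'.1 ∧ ¬ (q : ℤ) ∣ l.2 - l'.2 ∧ ca l = ca l'
  swap
  · push Not at hSA
    exact dic_symm h.hr.pos h.cp.symm (dcase h.symm hpos hcA hSA)
  exfalso
  have hNL := diff_pair h hpos hcL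
  have hNA := diff_pair h.symm hpos hcA
  have eL : Eq' q L := uni_q h hSL hNL
  have eA : Eq' q A := uni_q h.symm hSA hNA
  rcases m with _ | m
  · have hqK : q ∣ A.card := by
      rw [← eA 0]
      exact dvd_mul_right _ _
    have hq1 : q ∣ hh := by
      rw [hK] at hqK
      refine Nat.Coprime.dvd_of_dvd_mul_left ?_ hqK
      exact Nat.Coprime.mul_right ((Nat.coprime_primes h.hq h.hp).2 (Ne.symm h.pq))
        ((Nat.coprime_primes h.hq h.hr).2 (Ne.symm h.rq))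
    have hq2 : hh ∣ q := by
      have e := h.Kd
      rw [hK] at e
      have e' : p * q * r = p * r * q := by ring
      rw [e'] at e
      exact (Nat.mul_dvd_mul_iff_left (Nat.mul_pos h.hp.pos h.hr.pos)).1 e
    have hhq : hh = q := Nat.dvd_antisymm hq2 hq1
    exact full_per h fun x i => (hcA x i).trans hhq
  · have h2 := leafI q m p 0 r (cs ca) (cs cl) (sw A) (sw L) h.sw (Ep_sw.2 eA) (Ep_sw.2 eL)
    exact h.sw.not_sq h2

end Pool.Agent.Helper21.PU
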